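import Pool.Agent.helper51.NP.Spec

/-!
# Project np: module FQ, the numbers between are composite
-/

set_option autoImplicit false

namespace NPC

open Finset Real ArithmeticFunction Pool.Agent.helper39.MT Pool.Agent.helper85.FC

theorem FQ_residue (q m c : ℕ) (hq : q.Prime) (hm : ¬ q ∣ m) : ∃ x : ℕ, q ∣ m * x + c := by
  haveI := Fact.mk hq
  have hm0 : (m : ZMod q) ≠ 0 := by
    intro h
    exact hm ((ZMod.natCast_eq_zero_iff m q).1 h)
  refine ⟨(-(c : ZMod q) * (m : ZMod q)⁻¹).val, ?_⟩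
  rw [← ZMod.natCast_eq_zero_iff]
  push_cast
  rw [ZMod.natCast_val, ZMod.cast_id]
  field_simp
  ring

theorem FQ : FQ_stmt := by
  intro k h g hg hpos hdvd
  classical
  set N₀ : ℕ := ∑ i : Fin k, ∑ j : Fin k, g i * g j with hN₀
  set I : Type := Fin k × Fin k × Fin h
  let e : I ≃ Fin (Fintype.card I) := Fintype.equivFin I
  let q : I → ℕ := fun p => Nat.nth Nat.Prime (N₀ + ((e p : Fin (Fintype.card I)) : ℕ))
  have hqp : ∀ p, (q p).Prime := fun p => Nat.prime_nth_prime _
  have hqN : ∀ p, N₀ < q p := by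
    intro p
    have := Nat.add_two_le_nth_prime (N₀ + ((e p : Fin (Fintype.card I)) : ℕ))
    show N₀ < Nat.nth Nat.Prime (N₀ + ((e p : Fin (Fintype.card I)) : ℕ))
    omega
  have hqi : ∀ p p', q p = q p' → p = p' := by
    intro p p' hpp
    have h1 := Nat.nth_injective Nat.infinite_setOf_prime hpp
    have h2 : ((e p : Fin (Fintype.card I)) : ℕ) = ((e p' : Fin (Fintype.card I)) : ℕ) := by omega
    exact e.injective (Fin.ext h2)
  have hle : ∀ i j, g i * g j ≤ N₀ := by
    intro i j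
    calc g i * g j ≤ ∑ j : Fin k, g i * g j :=
          Finset.single_le_sum (f := fun j => g i * g j) (fun _ _ => Nat.zero_le _)
            (Finset.mem_univ j)
      _ ≤ N₀ := Finset.single_le_sum (f := fun i => ∑ j : Fin k, g i * g j)
            (fun _ _ => Nat.zero_le _) (Finset.mem_univ i)
  have hα : ∀ i j, i < j → 0 < g i / (g j - g i) := by
    intro i j hij
    exact Nat.div_pos (Nat.le_of_dvd (hpos i) (hdvd i j hij)) (Nat.sub_pos_of_lt (hg hij))
  have hres : ∀ p : I, ∃ x : ℕ, p.1 < p.2.1 →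
      q p ∣ g p.1 / (g p.2.1 - g p.1) * (g p.2.1 * x + h) + (p.2.2 : ℕ) := by
    intro p
    by_cases hp : p.1 < p.2.1
    · have hm : ¬ q p ∣ g p.1 / (g p.2.1 - g p.1) * g p.2.1 := by
        intro hd
        have h1 := Nat.le_of_dvd (Nat.mul_pos (hα _ _ hp) (hpos _)) hd
        have h2 : g p.1 / (g p.2.1 - g p.1) * g p.2.1 ≤ g p.1 * g p.2.1 :=
          Nat.mul_le_mul_right _ (Nat.div_le_self _ _)
        have h3 := hle p.1 p.2.1
        have h4 := hqN p
        omega
      obtain ⟨x, hx⟩ := FQ_residue (q p) _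
        (g p.1 / (g p.2.1 - g p.1) * h + (p.2.2 : ℕ)) (hqp p) hm
      refine ⟨x, fun _ => ?_⟩
      have heq : g p.1 / (g p.2.1 - g p.1) * (g p.2.1 * x + h) + (p.2.2 : ℕ)
          = g p.1 / (g p.2.1 - g p.1) * g p.2.1 * x
            + (g p.1 / (g p.2.1 - g p.1) * h + (p.2.2 : ℕ)) := by ring
      rw [heq]
      exact hx
    · exact ⟨0, fun hh => absurd hh hp⟩
  choose xr hxr using hres
  have hcop : Set.Pairwise (↑(Finset.univ : Finset I)) (Function.onFun Nat.Coprime q) := by
    intro p _ p' _ hpp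
    exact (Nat.coprime_primes (hqp p) (hqp p')).2 (fun hh => hpp (hqi p p' hh))
  obtain ⟨x₁, hx₁⟩ := Nat.chineseRemainderOfFinset xr q Finset.univ
    (fun p _ => (hqp p).ne_zero) hcop
  refine ⟨x₁, ∏ p : I, q p, Finset.prod_pos fun p _ => (hqp p).pos, ?_⟩
  intro x hx hMx i j hij τ hτ0 hτh hprime
  set p : I := (i, j, ⟨τ, hτh⟩) with hp
  have hqM : q p ∣ ∏ p : I, q p := Finset.dvd_prod_of_mem q (Finset.mem_univ p)
  have hxq : x ≡ xr p [MOD q p] := (hx.of_dvd hqM).trans (hx₁ p (Finset.mem_univ p))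
  have hd := hxr p hij
  have hd2 : q p ∣ g i / (g j - g i) * (g j * x + h) + τ := by
    have hmod : g i / (g j - g i) * (g j * x + h) + τ
        ≡ g i / (g j - g i) * (g j * xr p + h) + τ [MOD q p] :=
      Nat.ModEq.add_right _ (Nat.ModEq.mul_left _ (Nat.ModEq.add_right _
        (Nat.ModEq.mul_left _ hxq)))
    exact (hmod.dvd_iff (dvd_refl _)).2 hd
  have heq : q p = g i / (g j - g i) * (g j * x + h) + τ := by
    rcases (Nat.dvd_prime hprime).1 hd2 with h1 | h1
    · exact absurd h1 (hqp p).one_lt.ne'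
    · exact h1
  have hqle : q p ≤ x := by
    have h1 : q p ≤ ∏ p : I, q p :=
      Nat.le_of_dvd (Finset.prod_pos fun p _ => (hqp p).pos) hqM
    exact h1.trans hMx
  have h2 : x ≤ g i / (g j - g i) * (g j * x + h) := by
    calc x = 1 * (1 * x) := by ring
      _ ≤ g i / (g j - g i) * (g j * x + h) :=
        Nat.mul_le_mul (hα i j hij)
          ((Nat.mul_le_mul_right x (hpos j)).trans (Nat.le_add_right _ _))
  omega

end NPC
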